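import Mathlib

/-!
# Antichains of subgroups of a group of order dividing nine
-/

set_option autoImplicit false

namespace Pool.Agent.H45R2.Thin

theorem anti_nine {Q : Type} [Group Q] (H : Subgroup Q) (hH : Nat.card H ∣ 9)
    (S : Set (Subgroup Q)) (hS : ∀ N ∈ S, N ≤ H) (ha : IsAntichain (· ≤ ·) S) :
    S.encard ≤ 4 := by
  classical
  by_cases hs : S.Subsingleton
  · exact (Set.encard_le_one_iff_subsingleton.2 hs).trans (by norm_num)
  rw [Set.not_subsingleton_iff] at hs
  have hfin : Finite H := by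
    apply Nat.finite_of_card_ne_zero
    intro h
    rw [h] at hH
    norm_num at hH
  have hHf : (H : Set Q).Finite := Set.toFinite _
  have hother : ∀ N ∈ S, ∃ M ∈ S, N ≠ M := by
    intro N hN
    obtain ⟨a, ha, b, hb, hab⟩ := hs
    by_cases h : N = a
    · exact ⟨b, hb, by rw [h]; exact hab⟩
    · exact ⟨a, ha, h⟩
  have hbot : ∀ N ∈ S, Nat.card N ≠ 1 := by
    intro N hN h
    obtain ⟨M, hM, hne⟩ := hother N hN
    have : N = ⊥ := Subgroup.card_eq_one.1 h
    exact ha hN hM hne (by rw [this]; exact bot_le)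
  have hlt : ∀ N ∈ S, Nat.card N ≠ Nat.card H := by
    intro N hN h
    obtain ⟨M, hM, hne⟩ := hother N hN
    have : N = H := by
      apply Subgroup.eq_of_le_of_card_ge (hS N hN) h.ge
    exact ha hM hN (Ne.symm hne) (by rw [this]; exact hS M hM)
  have hdvd : ∀ N ∈ S, Nat.card N ∣ Nat.card H := fun N hN =>
    Subgroup.card_dvd_of_le (hS N hN)
  have h9 : ∀ a b : ℕ, b ∣ 9 → a ∣ b → a ≠ 1 → a ≠ b → a = 3 ∧ b = 9 := by
    intro a b hb hab h1 h2
    have hb9 : b ≤ 9 := Nat.le_of_dvd (by norm_num) hb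
    have hb0 : 0 < b := Nat.pos_of_dvd_of_pos hb (by norm_num)
    have ha9 : a ≤ b := Nat.le_of_dvd hb0 hab
    interval_cases b <;> interval_cases a <;> revert hb hab h1 h2 <;> decide
  have hcard : ∀ N ∈ S, Nat.card N = 3 ∧ Nat.card H = 9 := fun N hN =>
    h9 _ _ hH (hdvd N hN) (hbot N hN) (hlt N hN)
  have hHc : Nat.card H = 9 := by
    obtain ⟨a, ha, -⟩ := hs
    exact (hcard a ha).2
  have hinf : ∀ N ∈ S, ∀ M ∈ S, N ≠ M → N ⊓ M = ⊥ := by
    intro N hN M hM hne
    have h1 : Nat.card (N ⊓ M : Subgroup Q) ∣ 3 := by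
      rw [← (hcard N hN).1]; exact Subgroup.card_dvd_of_le inf_le_left
    rcases (Nat.dvd_prime Nat.prime_three).1 h1 with h | h
    · exact Subgroup.card_eq_one.1 h
    · exfalso
      have hNf : Finite N := Nat.finite_of_card_ne_zero (by rw [(hcard N hN).1]; norm_num)
      have : N ⊓ M = N :=
        Subgroup.eq_of_le_of_card_ge inf_le_left (by rw [h, (hcard N hN).1])
      exact ha hN hM hne (inf_eq_left.1 this)
  -- count
  by_contra hcon
  push Not at hcon
  obtain ⟨T, hTS, hT⟩ := Set.exists_subset_encard_eq (s := S) (k := 5)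
    (by
      have := Order.add_one_le_of_lt hcon
      exact this)
  have hTfin : T.Finite := by
    apply Set.finite_of_encard_eq_coe (k := 5)
    exact hT
  set T' := hTfin.toFinset with hT'
  have hT'c : T'.card = 5 := by
    have h1 : T.encard = (T'.card : ℕ∞) := by
      rw [hT', ← Set.encard_coe_eq_coe_finsetCard]; simp
    rw [hT] at h1
    exact_mod_cast h1.symm
  have hmem : ∀ N ∈ T', N ∈ S := by
    intro N hN
    exact hTS (by simpa [hT'] using hN)
  have hsub : ∀ N ∈ T', ((N : Set Q) \ {1}).Finite := fun N hN =>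
    (hHf.subset (hS N (hmem N hN))).subset Set.diff_subset
  let F : Subgroup Q → Finset Q := fun N =>
    hHf.toFinset.filter (fun x => x ∈ N ∧ x ≠ 1)
  have hF : ∀ N ∈ T', (F N).card = 2 := by
    intro N hN
    have h1 : (F N : Set Q) = (N : Set Q) \ {1} := by
      ext x
      simp only [F, Finset.coe_filter, Set.Finite.mem_toFinset, SetLike.mem_coe, Set.mem_setOf_eq,
        Set.mem_diff, Set.mem_singleton_iff]
      constructor
      · rintro ⟨_, h1, h2⟩; exact ⟨h1, h2⟩
      · rintro ⟨h1, h2⟩; exact ⟨hS N (hmem N hN) h1, h1, h2⟩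
    have h2 : (F N).card = ((N : Set Q) \ {1}).ncard := by
      rw [← h1, Set.ncard_coe_finset]
    rw [h2, Set.ncard_diff_singleton_of_mem N.one_mem]
    have h3 : (N : Set Q).ncard = 3 := by
      have := (hcard N (hmem N hN)).1
      rwa [← Nat.card_coe_set_eq]
    rw [h3]
  have hdisj : (T' : Set (Subgroup Q)).PairwiseDisjoint F := by
    intro N hN M hM hne
    rw [Function.onFun, Finset.disjoint_left]
    intro x hx hx'
    simp only [F, Finset.mem_filter] at hx hx'
    have h1 : x ∈ N ⊓ M := ⟨hx.2.1, hx'.2.1⟩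
    rw [hinf N (hmem N hN) M (hmem M hM) hne] at h1
    exact hx.2.2 (Subgroup.mem_bot.1 h1)
  have hc := Finset.card_biUnion hdisj
  have hle : (T'.biUnion F).card ≤ (hHf.toFinset.erase 1).card := by
    apply Finset.card_le_card
    intro x hx
    rw [Finset.mem_biUnion] at hx
    obtain ⟨N, hN, hx⟩ := hx
    simp only [F, Finset.mem_filter] at hx
    rw [Finset.mem_erase]
    exact ⟨hx.2.2, hx.1⟩
  have h8 : (hHf.toFinset.erase 1).card = 8 := by
    rw [Finset.card_erase_of_mem (by simpa using H.one_mem)]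
    have : hHf.toFinset.card = 9 := by
      rw [← Set.ncard_eq_toFinset_card (H : Set Q) hHf, ← Nat.card_coe_set_eq]
      exact hHc
    rw [this]
  rw [hc, h8, Finset.sum_congr rfl hF, Finset.sum_const, hT'c] at hle
  norm_num at hle

/-- Transfer to subgroups between `K` and `H`. -/
theorem anti_between {Γ : Type} [Group Γ] (K H : Subgroup Γ) [K.Normal] (hKH : K ≤ H)
    (hidx : K.relIndex H ∣ 9) (S : Set (Subgroup Γ)) (hS : ∀ N ∈ S, K ≤ N ∧ N ≤ H)
    (ha : IsAntichain (· ≤ ·) S) : S.encard ≤ 4 := by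
  let f : Subgroup Γ → Subgroup (Γ ⧸ K) := fun N => N.map (QuotientGroup.mk' K)
  have hcm : ∀ N, K ≤ N → (f N).comap (QuotientGroup.mk' K) = N := by
    intro N hN
    rw [Subgroup.comap_map_eq, QuotientGroup.ker_mk', sup_eq_left.2 hN]
  have hle : ∀ N M, K ≤ N → K ≤ M → f N ≤ f M → N ≤ M := by
    intro N M hN hM h
    rw [← hcm N hN, ← hcm M hM]
    exact Subgroup.comap_mono h
  have hinj : Set.InjOn f S := by
    intro N hN M hM h
    rw [← hcm N (hS N hN).1, ← hcm M (hS M hM).1, h]
  rw [← hinj.encard_image]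
  apply anti_nine (f H)
  · have : Nat.card (f H) = K.relIndex H := by
      have h1 : K.relIndex H = (⊥ : Subgroup (Γ ⧸ K)).relIndex (f H) := by
        have h2 := Subgroup.relIndex_comap (⊥ : Subgroup (Γ ⧸ K)) (QuotientGroup.mk' K) H
        rw [MonoidHom.comap_bot, QuotientGroup.ker_mk'] at h2
        exact h2
      rw [h1, Subgroup.relIndex_bot_left]
    rw [this]; exact hidx
  · rintro _ ⟨N, hN, rfl⟩
    exact Subgroup.map_mono (hS N hN).2
  · rintro _ ⟨N, hN, rfl⟩ _ ⟨M, hM, rfl⟩ hne h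
    exact ha hN hM (fun e => hne (by rw [e])) (hle N M (hS N hN).1 (hS M hM).1 h)

end Pool.Agent.H45R2.Thin
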