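import Pool.Agent.H45R2.Thin.Iwahori

/-!
# The covering property
-/

set_option autoImplicit false

namespace Pool.Agent.H45R2.Thin

open Matrix

variable {A : Type} [CommRing A]

/-- `π` is a uniformizer of `A`, with residue map `r` onto the field with three elements. -/
structure Unif (π : A) (r : A →+* ZMod 3) : Prop where
  cancel : ∀ x, π * x = 0 → x = 0
  ker : ∀ a, r a = 0 ↔ π ∣ a
  sep : ∀ a, (∀ n, π ^ n ∣ a) → a = 0

variable {π : A} {r : A →+* ZMod 3}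

namespace Unif

theorem cancel_pow (H : Unif π r) {n : ℕ} {x : A} (h : π ^ n * x = 0) : x = 0 := by
  induction n with
  | zero => simpa using h
  | succ n ih =>
    apply ih
    apply H.cancel
    rw [← mul_assoc, ← pow_succ']; exact h

theorem cancel_dvd (H : Unif π r) {n m : ℕ} {x : A} (h : π ^ (n + m) ∣ π ^ n * x) :
    π ^ m ∣ x := by
  obtain ⟨y, hy⟩ := h
  refine ⟨y, ?_⟩
  have : π ^ n * (x - π ^ m * y) = 0 := by rw [mul_sub, hy, pow_add]; ring
  have := H.cancel_pow this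
  exact sub_eq_zero.1 this

theorem r_pi (H : Unif π r) : r π = 0 := (H.ker π).2 dvd_rfl

theorem not_dvd (H : Unif π r) {n : ℕ} {x : A} (h : ¬ π ^ (n + 1) ∣ π ^ n * x) : r x ≠ 0 := by
  intro h1
  apply h
  rw [pow_succ]
  exact mul_dvd_mul_left _ ((H.ker x).1 h1)

theorem dvd_of_r (H : Unif π r) {n : ℕ} {x : A} (h : r x = 0) : π ^ (n + 1) ∣ π ^ n * x := by
  rw [pow_succ]
  exact mul_dvd_mul_left _ ((H.ker x).1 h)

end Unif

theorem z3 : ∀ a b : ZMod 3, a ≠ 0 → 2 * a * (2 * a * b) - b = 0 := by decide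
theorem z3' : ∀ a b : ZMod 3, a ≠ 0 → a * (a * b) - b = 0 := by decide

/-- the test elements -/
def tx (π s t : A) : SL2 A :=
  ⟨!![1 + s * (π * t), s; π * t, 1], by rw [Matrix.det_fin_two_of]; ring⟩

theorem mt_tx (π s t : A) : mt (tx π s t) - 1 = !![s * (π * t), s; π * t, 0] := by
  ext i j
  fin_cases i <;> fin_cases j <;> simp [mt, tx]

theorem tx_mem (π s t : A) : tx π s t ∈ G π 1 := by
  rw [mem_G, mt_tx]
  refine ⟨?_, ?_, ?_, ?_⟩ <;> simp
  exact ⟨s * t, by ring⟩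

theorem det_eq (g : SL2 A) : mt g 0 0 * mt g 1 1 - mt g 0 1 * mt g 1 0 = 1 := by
  have := mt_det g
  rwa [Matrix.det_fin_two] at this

theorem trace_dvd {n k : ℕ} {g : SL2 A} (hg : g ∈ G π n) (h1 : k ≤ 2 * (n / 2) + 1)
    (h2 : k ≤ 2 * ((n + 1) / 2)) : π ^ k ∣ (mt g 0 0 - 1) + (mt g 1 1 - 1) := by
  obtain ⟨ha, hd, hb, hc⟩ := mem_G'.1 hg
  have e : (mt g 0 0 - 1) + (mt g 1 1 - 1) =
      mt g 0 1 * mt g 1 0 - (mt g 0 0 - 1) * (mt g 1 1 - 1) := by
    linear_combination det_eq g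
  rw [e]
  exact dvd_sub (dvd_mul_pow hb hc (by omega)) (dvd_mul_pow ha hd (by omega))

theorem fin_two_sub_one (g : SL2 A) :
    mt g - 1 = !![mt g 0 0 - 1, mt g 0 1; mt g 1 0, mt g 1 1 - 1] := by
  ext i j
  fin_cases i <;> fin_cases j <;> simp

theorem comm_calc (a b c d s t a' b' c' d' : A) :
    !![a, b; c, d] * !![s * (π * t), s; π * t, 0] - !![s * (π * t), s; π * t, 0] * !![a, b; c, d] -
      !![a', b'; c', d'] =
    !![b * (π * t) - s * c - a', a * s - s * d - b' - s * t * (π * b);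
      (d - a) * (π * t) - c' + s * t * (π * c), s * c - b * (π * t) - d'] := by
  ext i j
  fin_cases i <;> fin_cases j <;> simp <;> ring

open scoped commutatorElement

theorem cover_even (H : Unif π r) {k : ℕ} (hk : 1 ≤ k) {u v : SL2 A} (hu : u ∈ G π (2 * k))
    (hu' : u ∉ G π (2 * k + 1)) (hv : v ∈ G π (2 * k + 1)) :
    ∃ x ∈ G π 1, v⁻¹ * ⁅u, x⁆ ∈ G π (2 * k + 2) := by
  have htr := trace_dvd (k := k + 1) hu (by omega) (by omega)
  obtain ⟨ha, hd, hb, hc⟩ := mem_G'.1 hu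
  obtain ⟨ha', hd', hb', hc'⟩ := mem_G'.1 hv
  rw [show (2 * k + 1) / 2 = k by omega] at ha hd
  rw [show 2 * k / 2 = k by omega] at hb hc
  rw [show (2 * k + 1 + 1) / 2 = k + 1 by omega] at ha' hd'
  rw [show (2 * k + 1) / 2 = k by omega] at hb' hc'
  obtain ⟨α, hα⟩ := ha
  obtain ⟨β, hβ⟩ := hb'
  obtain ⟨γ, hγ⟩ := hc'
  obtain ⟨δ, hδ⟩ := htr
  have hα0 : r α ≠ 0 := by
    apply H.not_dvd (n := k)
    intro h
    apply hu'
    rw [mem_G']
    rw [show (2 * k + 1 + 1) / 2 = k + 1 by omega, show (2 * k + 1) / 2 = k by omega]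
    rw [← hα] at h
    refine ⟨h, ?_, hb, hc⟩
    have : mt u 1 1 - 1 = π ^ (k + 1) * δ - (mt u 0 0 - 1) := by rw [← hδ]; ring
    rw [this]
    exact dvd_sub (dvd_mul_right _ _) h
  refine ⟨tx π (2 * α * β) (-(2 * α * γ)), tx_mem _ _ _, ?_⟩
  apply commutator_sub hu (tx_mem _ _ _) (by omega) (le_refl _) hv
  rw [mt_tx, fin_two_sub_one u, fin_two_sub_one v, comm_calc]
  have e1 : π ∣ 2 * α * (2 * α * β) - β := by
    rw [← H.ker]; simp only [map_sub, map_mul, map_ofNat]; exact z3 _ _ hα0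
  have e2 : π ∣ 2 * α * (2 * α * γ) - γ := by
    rw [← H.ker]; simp only [map_sub, map_mul, map_ofNat]; exact z3 _ _ hα0
  obtain ⟨f1, e1⟩ := e1
  obtain ⟨f2, e2⟩ := e2
  obtain ⟨b0, hb0⟩ := hb
  obtain ⟨c0, hc0⟩ := hc
  have hdd : mt u 1 1 - 1 = π ^ (k + 1) * δ - π ^ k * α := by rw [← hδ, hα]; ring
  refine ⟨?_, ?_, ?_, ?_⟩
  · rw [show (2 * k + 1 + 1 + 1) / 2 = k + 1 by omega]
    obtain ⟨a0, ha0⟩ := ha'
    refine ⟨b0 * (-(2 * α * γ)) - 2 * α * β * c0 - a0, ?_⟩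
    simp only [Matrix.of_apply, Matrix.cons_val', Matrix.cons_val_zero, Matrix.cons_val_one,
      Matrix.cons_val_fin_one, Fin.isValue]
    rw [hb0, hc0, ha0]; ring
  · rw [show (2 * k + 1 + 1 + 1) / 2 = k + 1 by omega]
    obtain ⟨a0, ha0⟩ := hd'
    refine ⟨2 * α * β * c0 - b0 * (-(2 * α * γ)) - a0, ?_⟩
    simp only [Matrix.of_apply, Matrix.cons_val', Matrix.cons_val_zero, Matrix.cons_val_one,
      Matrix.cons_val_fin_one, Fin.isValue]
    rw [hb0, hc0, ha0]; ring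
  · rw [show (2 * k + 1 + 1) / 2 = k + 1 by omega]
    refine ⟨f1 - 2 * α * β * δ + 2 * α * β * (2 * α * γ) * b0, ?_⟩
    simp only [Matrix.of_apply, Matrix.cons_val', Matrix.cons_val_zero, Matrix.cons_val_one,
      Matrix.cons_val_fin_one, Fin.isValue]
    rw [hdd, hα, hβ, hb0]
    linear_combination π ^ k * e1
  · rw [show (2 * k + 1 + 1) / 2 = k + 1 by omega]
    refine ⟨f2 - 2 * α * γ * δ - 2 * α * β * (2 * α * γ) * c0, ?_⟩
    simp only [Matrix.of_apply, Matrix.cons_val', Matrix.cons_val_zero, Matrix.cons_val_one,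
      Matrix.cons_val_fin_one, Fin.isValue]
    rw [hdd, hα, hγ, hc0]
    linear_combination π ^ (k + 1) * e2

theorem cover_odd (H : Unif π r) {k : ℕ} {u v : SL2 A} (hu : u ∈ G π (2 * k + 1))
    (hu' : u ∉ G π (2 * k + 2)) (hv : v ∈ G π (2 * k + 2)) :
    ∃ x ∈ G π 1, v⁻¹ * ⁅u, x⁆ ∈ G π (2 * k + 3) := by
  have htr := trace_dvd (k := k + 2) hv (by omega) (by omega)
  obtain ⟨ha, hd, hb, hc⟩ := mem_G'.1 hu
  obtain ⟨ha', hd', hb', hc'⟩ := mem_G'.1 hv
  rw [show (2 * k + 1 + 1) / 2 = k + 1 by omega] at ha hd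
  rw [show (2 * k + 1) / 2 = k by omega] at hb hc
  rw [show (2 * k + 2 + 1) / 2 = k + 1 by omega] at ha' hd'
  rw [show (2 * k + 2) / 2 = k + 1 by omega] at hb' hc'
  obtain ⟨β, hβ⟩ := hb
  obtain ⟨γ, hγ⟩ := hc
  obtain ⟨ω, hω⟩ := ha'
  obtain ⟨δ, hδ⟩ := htr
  have hdd : mt v 1 1 - 1 = π ^ (k + 2) * δ - π ^ (k + 1) * ω := by rw [← hδ, hω]; ring
  have key : ∃ s t : A, ∃ f, β * t - s * γ - ω = π * f := by
    by_cases h0 : r β = 0
    · have h1 : r γ ≠ 0 := by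
        apply H.not_dvd (n := k + 1)
        intro h
        apply hu'
        rw [mem_G']
        rw [show (2 * k + 2 + 1) / 2 = k + 1 by omega, show (2 * k + 2) / 2 = k + 1 by omega]
        rw [← hγ] at h
        refine ⟨ha, hd, ?_, h⟩
        rw [hβ]; exact H.dvd_of_r h0
      have : π ∣ γ * (γ * ω) - ω := by
        rw [← H.ker]; simp only [map_sub, map_mul]; exact z3' _ _ h1
      obtain ⟨f, hf⟩ := this
      exact ⟨-(γ * ω), 0, f, by rw [← hf]; ring⟩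
    · have : π ∣ β * (β * ω) - ω := by
        rw [← H.ker]; simp only [map_sub, map_mul]; exact z3' _ _ h0
      obtain ⟨f, hf⟩ := this
      exact ⟨0, β * ω, f, by rw [← hf]; ring⟩
  obtain ⟨s, t, f, hf⟩ := key
  refine ⟨tx π s t, tx_mem _ _ _, ?_⟩
  apply commutator_sub hu (tx_mem _ _ _) (by omega) (le_refl _) hv
  rw [mt_tx, fin_two_sub_one u, fin_two_sub_one v, comm_calc]
  obtain ⟨a0, ha0⟩ := ha
  obtain ⟨d0, hd0⟩ := hd
  obtain ⟨b1, hb1⟩ := hb'
  obtain ⟨c1, hc1⟩ := hc'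
  have hω' : ω = β * t - s * γ - π * f := by rw [← hf]; ring
  refine ⟨?_, ?_, ?_, ?_⟩
  · rw [show (2 * k + 1 + 1 + 1 + 1) / 2 = k + 2 by omega]
    refine ⟨f, ?_⟩
    simp only [Matrix.of_apply, Matrix.cons_val', Matrix.cons_val_zero, Matrix.cons_val_one,
      Matrix.cons_val_fin_one, Fin.isValue]
    rw [hβ, hγ, hω, hω']; ring
  · rw [show (2 * k + 1 + 1 + 1 + 1) / 2 = k + 2 by omega]
    refine ⟨-f - δ, ?_⟩
    simp only [Matrix.of_apply, Matrix.cons_val', Matrix.cons_val_zero, Matrix.cons_val_one,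
      Matrix.cons_val_fin_one, Fin.isValue]
    rw [hβ, hγ, hdd, hω']; ring
  · rw [show (2 * k + 1 + 1 + 1) / 2 = k + 1 by omega]
    refine ⟨a0 * s - s * d0 - b1 - s * t * β, ?_⟩
    simp only [Matrix.of_apply, Matrix.cons_val', Matrix.cons_val_zero, Matrix.cons_val_one,
      Matrix.cons_val_fin_one, Fin.isValue]
    rw [ha0, hd0, hb1, hβ]; ring
  · rw [show (2 * k + 1 + 1 + 1) / 2 = k + 1 by omega]
    refine ⟨(d0 - a0) * t - c1 + s * t * γ, ?_⟩
    simp only [Matrix.of_apply, Matrix.cons_val', Matrix.cons_val_zero, Matrix.cons_val_one,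
      Matrix.cons_val_fin_one, Fin.isValue]
    rw [ha0, hd0, hc1, hγ]; ring

/-- The covering property: for `u` of level exactly `n` the commutators `⁅u, x⁆` cover
`G π (n + 1)` modulo `G π (n + 2)`. -/
theorem cover (H : Unif π r) {n : ℕ} (hn : 1 ≤ n) {u v : SL2 A} (hu : u ∈ G π n)
    (hu' : u ∉ G π (n + 1)) (hv : v ∈ G π (n + 1)) :
    ∃ x ∈ G π 1, v⁻¹ * ⁅u, x⁆ ∈ G π (n + 2) := by
  obtain ⟨k, hk | hk⟩ := Nat.even_or_odd' n
  · subst hk; exact cover_even H (by omega) hu hu' hv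
  · subst hk; exact cover_odd H hu hu' hv

end Pool.Agent.H45R2.Thin
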