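import Mathlib

/-!
# The pro-3 Iwahori subgroup of `SL₂` over a compact discrete valuation ring with residue field
of three elements: its filtration, and the covering property
-/

set_option autoImplicit false

namespace Pool.Agent.H45R2.Thin

open Matrix

variable {A : Type} [CommRing A]

/-- The `n`-th power of the radical of the Iwahori order: diagonal entries divisible by
`π ^ ⌈n/2⌉`, upper right entry by `π ^ ⌊n/2⌋`, lower left entry by `π ^ (⌊n/2⌋ + 1)`. -/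
def J (π : A) (n : ℕ) (M : Matrix (Fin 2) (Fin 2) A) : Prop :=
  π ^ ((n + 1) / 2) ∣ M 0 0 ∧ π ^ ((n + 1) / 2) ∣ M 1 1 ∧
    π ^ (n / 2) ∣ M 0 1 ∧ π ^ (n / 2 + 1) ∣ M 1 0

variable {π : A}

theorem J.add {n : ℕ} {M N : Matrix (Fin 2) (Fin 2) A} (hM : J π n M) (hN : J π n N) :
    J π n (M + N) := by
  obtain ⟨h1, h2, h3, h4⟩ := hM
  obtain ⟨k1, k2, k3, k4⟩ := hN
  exact ⟨dvd_add h1 k1, dvd_add h2 k2, dvd_add h3 k3, dvd_add h4 k4⟩

theorem J.neg {n : ℕ} {M : Matrix (Fin 2) (Fin 2) A} (hM : J π n M) : J π n (-M) := by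
  obtain ⟨h1, h2, h3, h4⟩ := hM
  exact ⟨(dvd_neg).2 h1, (dvd_neg).2 h2, (dvd_neg).2 h3, (dvd_neg).2 h4⟩

theorem J.sub {n : ℕ} {M N : Matrix (Fin 2) (Fin 2) A} (hM : J π n M) (hN : J π n N) :
    J π n (M - N) := by
  rw [sub_eq_add_neg]; exact hM.add hN.neg

theorem J.zero (n : ℕ) : J π n (0 : Matrix (Fin 2) (Fin 2) A) :=
  ⟨dvd_zero _, dvd_zero _, dvd_zero _, dvd_zero _⟩

theorem J.mono {m n : ℕ} (h : m ≤ n) {M : Matrix (Fin 2) (Fin 2) A} (hM : J π n M) :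
    J π m M := by
  obtain ⟨h1, h2, h3, h4⟩ := hM
  exact ⟨(pow_dvd_pow π (by omega)).trans h1, (pow_dvd_pow π (by omega)).trans h2,
    (pow_dvd_pow π (by omega)).trans h3, (pow_dvd_pow π (by omega)).trans h4⟩

theorem dvd_mul_pow {a b : A} {i j k : ℕ} (ha : π ^ i ∣ a) (hb : π ^ j ∣ b) (h : k ≤ i + j) :
    π ^ k ∣ a * b :=
  (pow_dvd_pow π h).trans (by rw [pow_add]; exact mul_dvd_mul ha hb)

theorem J.mul {m n : ℕ} {M N : Matrix (Fin 2) (Fin 2) A} (hM : J π m M) (hN : J π n N) :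
    J π (m + n) (M * N) := by
  obtain ⟨h1, h2, h3, h4⟩ := hM
  obtain ⟨k1, k2, k3, k4⟩ := hN
  refine ⟨?_, ?_, ?_, ?_⟩ <;> rw [Matrix.mul_apply, Fin.sum_univ_two]
  · exact dvd_add (dvd_mul_pow h1 k1 (by omega)) (dvd_mul_pow h3 k4 (by omega))
  · exact dvd_add (dvd_mul_pow h4 k3 (by omega)) (dvd_mul_pow h2 k2 (by omega))
  · exact dvd_add (dvd_mul_pow h1 k3 (by omega)) (dvd_mul_pow h3 k2 (by omega))
  · exact dvd_add (dvd_mul_pow h4 k1 (by omega)) (dvd_mul_pow h2 k4 (by omega))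

/-- `J` is a two-sided module over the level-`0` matrices. -/
theorem J.mul' {m n k : ℕ} {M N : Matrix (Fin 2) (Fin 2) A} (hM : J π m M) (hN : J π n N)
    (h : k ≤ m + n) : J π k (M * N) := (hM.mul hN).mono h

theorem J.one : J π 0 (1 : Matrix (Fin 2) (Fin 2) A) := by
  refine ⟨?_, ?_, ?_, ?_⟩ <;> simp

/-- the special linear group of degree two -/
abbrev SL2 (A : Type) [CommRing A] : Type := Matrix.SpecialLinearGroup (Fin 2) A

/-- the underlying matrix -/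
def mt (g : SL2 A) : Matrix (Fin 2) (Fin 2) A := g.1

theorem mt_mul (g h : SL2 A) : mt (g * h) = mt g * mt h := rfl
theorem mt_one : mt (1 : SL2 A) = 1 := rfl
theorem mt_inv (g : SL2 A) : mt (g⁻¹) = (mt g).adjugate := rfl
theorem mt_mul_inv (g : SL2 A) : mt g * mt (g⁻¹) = 1 := by
  rw [← mt_mul, mul_inv_cancel, mt_one]
theorem mt_inv_mul (g : SL2 A) : mt (g⁻¹) * mt g = 1 := by
  rw [← mt_mul, inv_mul_cancel, mt_one]
theorem mt_inj {g h : SL2 A} (e : mt g = mt h) : g = h := Subtype.ext e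
theorem mt_det (g : SL2 A) : (mt g).det = 1 := g.2

/-- The subgroups of the filtration. -/
def G (π : A) (n : ℕ) : Subgroup (SL2 A) where
  carrier := {g | J π n (mt g - 1)}
  one_mem' := by
    change J π n (mt 1 - 1)
    rw [mt_one, sub_self]; exact J.zero n
  mul_mem' := by
    intro a b ha hb
    change J π n (mt (a * b) - 1)
    rw [mt_mul]
    have e : mt a * mt b - 1 = (mt a - 1) * (mt b - 1) + (mt a - 1) + (mt b - 1) := by noncomm_ring
    rw [e]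
    exact ((J.mul' (k := n) ha hb (by omega)).add ha).add hb
  inv_mem' := by
    intro a ha
    obtain ⟨h1, h2, h3, h4⟩ := ha
    change J π n (mt (a⁻¹) - 1)
    rw [mt_inv, Matrix.adjugate_fin_two]
    simp only [Matrix.sub_apply, Matrix.one_apply_eq] at h1 h2
    simp only [Matrix.sub_apply, Matrix.one_apply, Fin.isValue, zero_ne_one, one_ne_zero, if_false,
      sub_zero] at h3 h4
    refine ⟨?_, ?_, ?_, ?_⟩
    · simpa using h2
    · simpa using h1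
    · simpa using h3
    · simpa using h4

theorem mem_G {n : ℕ} {g : SL2 A} : g ∈ G π n ↔ J π n (mt g - 1) := Iff.rfl

theorem mem_G' {n : ℕ} {g : SL2 A} :
    g ∈ G π n ↔ π ^ ((n + 1) / 2) ∣ mt g 0 0 - 1 ∧ π ^ ((n + 1) / 2) ∣ mt g 1 1 - 1 ∧
      π ^ (n / 2) ∣ mt g 0 1 ∧ π ^ (n / 2 + 1) ∣ mt g 1 0 := by
  rw [mem_G, J]
  simp

theorem G_anti {m n : ℕ} (h : m ≤ n) : G π n ≤ G π m := fun _ hg => J.mono h hg

theorem J_mt {g : SL2 A} (hg : g ∈ G π 1) : J π 0 (mt g) := by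
  have : mt g = (mt g - 1) + 1 := by simp
  rw [this]
  exact (J.mono (by omega) hg).add J.one

theorem conj_mem {n : ℕ} {x g : SL2 A} (hx : x ∈ G π 1) (hg : g ∈ G π n) :
    x * g * x⁻¹ ∈ G π n := by
  rw [mem_G]
  have e : mt (x * g * x⁻¹) - 1 = mt x * (mt g - 1) * mt (x⁻¹) := by
    rw [mt_mul, mt_mul, mul_sub, mul_one, sub_mul, mt_mul_inv]
  rw [e]
  exact J.mul' (J.mul' (J_mt hx) hg (le_refl _)) (J_mt (inv_mem hx)) (by omega)

open scoped commutatorElement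

/-- The commutator of `1 + U` and `1 + X` is `1 + (UX - XU)` modulo higher terms. -/
theorem commutator_sub {m n : ℕ} {u x : SL2 A} (hu : u ∈ G π m) (hx : x ∈ G π n)
    (hm : 1 ≤ m) (hn : 1 ≤ n) {w : SL2 A} (hw : w ∈ G π (m + n))
    (h : J π (m + n + 1) ((mt u - 1) * (mt x - 1) - (mt x - 1) * (mt u - 1) - (mt w - 1))) :
    w⁻¹ * ⁅u, x⁆ ∈ G π (m + n + 1) := by
  have hu1 : u ∈ G π 1 := G_anti hm hu
  have hx1 : x ∈ G π 1 := G_anti hn hx
  rw [mem_G]
  have e : mt (w⁻¹ * ⁅u, x⁆) - 1 =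
      mt (w⁻¹) * (mt u * mt x - mt w * (mt x * mt u)) * mt ((x * u)⁻¹) := by
    have h2 : (mt x * mt u) * mt ((x * u)⁻¹) = 1 := by rw [← mt_mul, mt_mul_inv]
    rw [mul_sub, sub_mul, ← mul_assoc _ (mt w), mt_inv_mul, one_mul, h2]
    congr 1
    rw [← mt_mul, ← mt_mul, ← mt_mul]
    congr 1
    rw [commutatorElement_def]; group
  rw [e]
  have hwi : J π 0 (mt (w⁻¹)) := J_mt (inv_mem (G_anti (by omega) hw))
  have hxui : J π 0 (mt ((x * u)⁻¹)) := J_mt (inv_mem (mul_mem hx1 hu1))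
  refine J.mul' (J.mul' hwi (?_ : J π (m + n + 1) _) (le_refl _)) hxui (by omega)
  have e2 : mt u * mt x - mt w * (mt x * mt u) =
      ((mt u - 1) * (mt x - 1) - (mt x - 1) * (mt u - 1) - (mt w - 1)) -
        (mt w - 1) * ((mt x - 1) * (mt u - 1) + (mt x - 1) + (mt u - 1)) := by noncomm_ring
  rw [e2]
  refine h.sub (J.mul' (n := 1) hw ?_ (show m + n + 1 ≤ (m + n) + 1 by omega))
  exact ((J.mul' hx hu (by omega)).add (J.mono hn hx)).add (J.mono hm hu)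

end Pool.Agent.H45R2.Thin
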