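import Pool.Agent.H45R2.Thin.Cover

/-!
# The indices of the filtration
-/

set_option autoImplicit false

namespace Pool.Agent.H45R2.Thin

open Matrix
open scoped commutatorElement

variable {A : Type} [CommRing A] {π : A} {r : A →+* ZMod 3}

open Classical in
/-- the residue of `x / π ^ k` -/
noncomputable def rho (π : A) (r : A →+* ZMod 3) (k : ℕ) (x : A) : ZMod 3 :=
  if h : π ^ k ∣ x then r h.choose else 0

theorem rho_eq (H : Unif π r) {k : ℕ} {x y : A} (h : x = π ^ k * y) : rho π r k x = r y := by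
  have hd : π ^ k ∣ x := ⟨y, h⟩
  rw [rho, dif_pos hd]
  have h1 := hd.choose_spec
  have h2 : π ^ k * (hd.choose - y) = 0 := by rw [mul_sub, ← h, ← h1, sub_self]
  rw [sub_eq_zero.1 (H.cancel_pow h2)]

theorem rho_add (H : Unif π r) {k : ℕ} {x y : A} (hx : π ^ k ∣ x) (hy : π ^ k ∣ y) :
    rho π r k (x + y) = rho π r k x + rho π r k y := by
  obtain ⟨a, ha⟩ := hx
  obtain ⟨b, hb⟩ := hy
  rw [rho_eq H ha, rho_eq H hb, rho_eq H (y := a + b) (by rw [ha, hb]; ring), map_add]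

theorem rho_zero (H : Unif π r) {k : ℕ} {x : A} (hx : π ^ (k + 1) ∣ x) : rho π r k x = 0 := by
  obtain ⟨a, ha⟩ := hx
  rw [rho_eq H (y := π * a) (by rw [ha, pow_succ]; ring), map_mul, H.r_pi, zero_mul]

theorem dvd_of_rho (H : Unif π r) {k : ℕ} {x : A} (hx : π ^ k ∣ x) (h : rho π r k x = 0) :
    π ^ (k + 1) ∣ x := by
  obtain ⟨a, ha⟩ := hx
  rw [rho_eq H ha] at h
  rw [ha]
  exact H.dvd_of_r h

theorem mt_mul_apply (u v : SL2 A) (i j : Fin 2) :
    mt (u * v) i j = mt u i 0 * mt v 0 j + mt u i 1 * mt v 1 j := by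
  rw [mt_mul, Matrix.mul_apply, Fin.sum_univ_two]

/-- Abstract index criterion. -/
theorem relIndex_dvd {Γ : Type} [Group Γ] {V : Type} [AddGroup V] (K H : Subgroup Γ)
    (f : Γ → V) (hf : ∀ a ∈ H, ∀ b ∈ H, f (a * b) = f a + f b)
    (hk : ∀ a ∈ H, (a ∈ K ↔ f a = 0)) : K.relIndex H ∣ Nat.card V := by
  let F : H →* Multiplicative V :=
    { toFun := fun a => Multiplicative.ofAdd (f a)
      map_one' := by
        have h := hf 1 H.one_mem 1 H.one_mem
        rw [mul_one] at h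
        have h0 : f 1 = 0 := by simpa using h
        change Multiplicative.ofAdd (f ((1 : H) : Γ)) = 1
        rw [Subgroup.coe_one, h0]; rfl
      map_mul' := by
        intro a b
        change Multiplicative.ofAdd (f ((a * b : H) : Γ)) = _
        rw [Subgroup.coe_mul, hf a a.2 b b.2]; rfl }
  have hker : F.ker = K.subgroupOf H := by
    ext a
    rw [MonoidHom.mem_ker, Subgroup.mem_subgroupOf, hk a a.2]
    rfl
  rw [Subgroup.relIndex, ← hker, Subgroup.index_ker]
  have := Subgroup.card_subgroup_dvd_card F.range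
  rwa [Nat.card_congr (Multiplicative.toAdd (α := V))] at this

theorem relIndex_nine (H : Unif π r) {n : ℕ} (hn : 1 ≤ n) :
    (G π (n + 1)).relIndex (G π n) ∣ 9 := by
  have hc : Nat.card (ZMod 3 × ZMod 3) = 9 := by simp
  rw [← hc]
  obtain ⟨k, hk | hk⟩ := Nat.even_or_odd' n
  · subst hk
    apply relIndex_dvd (G π (2 * k + 1)) (G π (2 * k))
      (fun u => ((rho π r k (mt u 0 0 - 1), 0) : ZMod 3 × ZMod 3))
    · intro u hu v hv
      obtain ⟨ha, hd, hb, hc⟩ := mem_G'.1 hu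
      obtain ⟨ha', hd', hb', hc'⟩ := mem_G'.1 hv
      rw [show (2 * k + 1) / 2 = k by omega] at ha hd ha' hd'
      rw [show 2 * k / 2 = k by omega] at hb hc hb' hc'
      have e : mt (u * v) 0 0 - 1 = ((mt u 0 0 - 1) + (mt v 0 0 - 1)) +
          ((mt u 0 0 - 1) * (mt v 0 0 - 1) + mt u 0 1 * mt v 1 0) := by
        rw [mt_mul_apply]; ring
      have h1 : π ^ (k + 1) ∣ (mt u 0 0 - 1) * (mt v 0 0 - 1) + mt u 0 1 * mt v 1 0 :=
        dvd_add (dvd_mul_pow ha ha' (by omega)) (dvd_mul_pow hb hc' (by omega))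
      rw [Prod.mk_add_mk, add_zero, e, rho_add H (dvd_add ha ha')
        ((pow_dvd_pow π (by omega)).trans h1), rho_add H ha ha', rho_zero H h1, add_zero]
    · intro u hu
      have htr := trace_dvd (k := k + 1) hu (by omega) (by omega)
      obtain ⟨ha, hd, hb, hc⟩ := mem_G'.1 hu
      rw [show (2 * k + 1) / 2 = k by omega] at ha hd
      rw [show 2 * k / 2 = k by omega] at hb hc
      rw [mem_G', show (2 * k + 1 + 1) / 2 = k + 1 by omega, show (2 * k + 1) / 2 = k by omega,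
        Prod.mk_eq_zero]
      constructor
      · rintro ⟨h, -⟩
        exact ⟨rho_zero H h, rfl⟩
      · rintro ⟨h, -⟩
        have h1 := dvd_of_rho H ha h
        refine ⟨h1, ?_, hb, hc⟩
        have : mt u 1 1 - 1 = ((mt u 0 0 - 1) + (mt u 1 1 - 1)) - (mt u 0 0 - 1) := by ring
        rw [this]
        exact dvd_sub htr h1
  · subst hk
    apply relIndex_dvd (G π (2 * k + 1 + 1)) (G π (2 * k + 1))
      (fun u => ((rho π r k (mt u 0 1), rho π r (k + 1) (mt u 1 0)) : ZMod 3 × ZMod 3))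
    · intro u hu v hv
      obtain ⟨ha, hd, hb, hc⟩ := mem_G'.1 hu
      obtain ⟨ha', hd', hb', hc'⟩ := mem_G'.1 hv
      rw [show (2 * k + 1 + 1) / 2 = k + 1 by omega] at ha hd ha' hd'
      rw [show (2 * k + 1) / 2 = k by omega] at hb hc hb' hc'
      have e : mt (u * v) 0 1 = (mt u 0 1 + mt v 0 1) +
          ((mt u 0 0 - 1) * mt v 0 1 + mt u 0 1 * (mt v 1 1 - 1)) := by
        rw [mt_mul_apply]; ring
      have h1 : π ^ (k + 1) ∣ (mt u 0 0 - 1) * mt v 0 1 + mt u 0 1 * (mt v 1 1 - 1) :=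
        dvd_add (dvd_mul_pow ha hb' (by omega)) (dvd_mul_pow hb hd' (by omega))
      have e' : mt (u * v) 1 0 = (mt u 1 0 + mt v 1 0) +
          (mt u 1 0 * (mt v 0 0 - 1) + (mt u 1 1 - 1) * mt v 1 0) := by
        rw [mt_mul_apply]; ring
      have h2 : π ^ (k + 1 + 1) ∣ mt u 1 0 * (mt v 0 0 - 1) + (mt u 1 1 - 1) * mt v 1 0 :=
        dvd_add (dvd_mul_pow hc ha' (by omega)) (dvd_mul_pow hd hc' (by omega))
      rw [Prod.mk_add_mk, e, e', rho_add H (dvd_add hb hb')
        ((pow_dvd_pow π (by omega)).trans h1), rho_add H hb hb', rho_zero H h1, add_zero,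
        rho_add H (dvd_add hc hc')
        ((pow_dvd_pow π (by omega)).trans h2), rho_add H hc hc', rho_zero H h2, add_zero]
    · intro u hu
      obtain ⟨ha, hd, hb, hc⟩ := mem_G'.1 hu
      rw [show (2 * k + 1 + 1) / 2 = k + 1 by omega] at ha hd
      rw [show (2 * k + 1) / 2 = k by omega] at hb hc
      rw [mem_G', show (2 * k + 1 + 1 + 1) / 2 = k + 1 by omega,
        show (2 * k + 1 + 1) / 2 = k + 1 by omega, Prod.mk_eq_zero]
      constructor
      · rintro ⟨-, -, h1, h2⟩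
        exact ⟨rho_zero H h1, rho_zero H h2⟩
      · rintro ⟨h1, h2⟩
        exact ⟨ha, hd, dvd_of_rho H hb h1, dvd_of_rho H hc h2⟩

theorem not_pow_dvd (H : Unif π r) {k : ℕ} : ¬ π ^ (k + 1) ∣ π ^ k := by
  intro h
  have h1 : π ^ (k + 1) ∣ π ^ k * 1 := by rwa [mul_one]
  have h2 := H.cancel_dvd h1
  rw [pow_one] at h2
  have := (H.ker 1).2 h2
  rw [map_one] at this
  exact absurd this (by decide)

/-- every level is attained -/
theorem exists_exact (H : Unif π r) {n : ℕ} (hn : 1 ≤ n) : ∃ u ∈ G π n, u ∉ G π (n + 1) := by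
  obtain ⟨k, hk | hk⟩ := Nat.even_or_odd' n
  · subst hk
    set z := π ^ k with hz
    let u : SL2 A := ⟨!![1 + z, z; z ^ 2, 1 - z + z ^ 2], by rw [Matrix.det_fin_two_of]; ring⟩
    have h1 : mt u 0 0 = 1 + z := by simp [mt, u]
    have h2 : mt u 0 1 = z := by simp [mt, u]
    have h3 : mt u 1 0 = z ^ 2 := by simp [mt, u]
    have h4 : mt u 1 1 = 1 - z + z ^ 2 := by simp [mt, u]
    refine ⟨u, ?_, ?_⟩
    · rw [mem_G', h1, h2, h3, h4, show (2 * k + 1) / 2 = k by omega,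
        show 2 * k / 2 = k by omega, ← hz]
      refine ⟨by simp, ⟨-1 + z, by ring⟩, dvd_rfl, ?_⟩
      rw [hz, ← pow_mul]
      exact pow_dvd_pow π (by omega)
    · rw [mem_G', h1, show (2 * k + 1 + 1) / 2 = k + 1 by omega]
      rintro ⟨h, -⟩
      rw [add_sub_cancel_left] at h
      exact not_pow_dvd H h
  · subst hk
    have h1 : mt (tx π (π ^ k) 0) 0 0 = 1 := by simp [mt, tx]
    have h2 : mt (tx π (π ^ k) 0) 0 1 = π ^ k := by simp [mt, tx]
    have h3 : mt (tx π (π ^ k) 0) 1 0 = 0 := by simp [mt, tx]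
    have h4 : mt (tx π (π ^ k) 0) 1 1 = 1 := by simp [mt, tx]
    refine ⟨tx π (π ^ k) 0, ?_, ?_⟩
    · rw [mem_G', h1, h2, h3, h4, show (2 * k + 1) / 2 = k by omega]
      exact ⟨by simp, by simp, dvd_rfl, dvd_zero _⟩
    · rw [mem_G', h2, show (2 * k + 1 + 1) / 2 = k + 1 by omega]
      rintro ⟨-, -, h, -⟩
      exact not_pow_dvd H h

theorem iInf_G (H : Unif π r) {g : SL2 A} (h : ∀ n, g ∈ G π n) : g = 1 := by
  have h0 : mt g 0 0 - 1 = 0 := H.sep _ fun n => by
    have := (mem_G'.1 (h (2 * n))).1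
    rwa [show (2 * n + 1) / 2 = n by omega] at this
  have h1 : mt g 1 1 - 1 = 0 := H.sep _ fun n => by
    have := (mem_G'.1 (h (2 * n))).2.1
    rwa [show (2 * n + 1) / 2 = n by omega] at this
  have h2 : mt g 0 1 = 0 := H.sep _ fun n => by
    have := (mem_G'.1 (h (2 * n))).2.2.1
    rwa [show (2 * n) / 2 = n by omega] at this
  have h3 : mt g 1 0 = 0 := H.sep _ fun n => by
    have := (mem_G'.1 (h (2 * n))).2.2.2
    rw [show (2 * n) / 2 = n by omega] at this
    exact (pow_dvd_pow π (by omega)).trans this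
  apply mt_inj
  rw [mt_one]
  ext i j
  fin_cases i <;> fin_cases j
  · simpa using sub_eq_zero.1 h0
  · simpa using h2
  · simpa using h3
  · simpa using sub_eq_zero.1 h1

theorem comm_mem {n : ℕ} {u x : SL2 A} (hn : 1 ≤ n) (hu : u ∈ G π n) (hx : x ∈ G π 1) :
    ⁅u, x⁆ ∈ G π (n + 1) := by
  have hu1 : u ∈ G π 1 := G_anti hn hu
  rw [mem_G]
  have e : mt ⁅u, x⁆ - 1 = (mt u * mt x - (mt x * mt u)) * mt ((x * u)⁻¹) := by
    have h2 : (mt x * mt u) * mt ((x * u)⁻¹) = 1 := by rw [← mt_mul, mt_mul_inv]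
    rw [sub_mul, h2]
    congr 1
    rw [← mt_mul, ← mt_mul]
    congr 1
    rw [commutatorElement_def]; group
  rw [e]
  have hxui : J π 0 (mt ((x * u)⁻¹)) := J_mt (inv_mem (mul_mem hx hu1))
  refine J.mul' (?_ : J π (n + 1) _) hxui (by omega)
  have e2 : mt u * mt x - (mt x * mt u) =
      (mt u - 1) * (mt x - 1) - (mt x - 1) * (mt u - 1) := by noncomm_ring
  rw [e2]
  exact (hu.mul hx).sub (J.mul' hx hu (by omega))

end Pool.Agent.H45R2.Thin
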