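import Pool.Agent.H45R2.Thin.Topo

/-!
# The rings `ℤ₃[3^(1/e)]`, and the groups over them are pairwise non-isomorphic
-/

set_option autoImplicit false

namespace Pool.Agent.H45R2.Thin

open Topology Filter
open scoped commutatorElement

section hom

variable {A : Type} [CommRing A] [TopologicalSpace A] [IsTopologicalRing A] [CompactSpace A]
  [T2Space A] {π : A} {r : A →+* ZMod 3}
  {A' : Type} [CommRing A'] [TopologicalSpace A'] [IsTopologicalRing A'] [CompactSpace A']
  [T2Space A'] {π' : A'}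

theorem map_L (H : Unif π r) (φ : P π →* P π') (hφ : Continuous φ) :
    ∀ n, ∀ u ∈ L π (n + 1), φ u ∈ L π' (n + 1) := by
  intro n
  induction n with
  | zero => intro u _; rw [L_one]; exact Subgroup.mem_top _
  | succ n ih =>
    have h : L π (n + 1 + 1) ≤ (L π' (n + 1 + 1)).comap φ := by
      have hc : ∀ m, n + 1 ≤ m → ∀ w ∈ L π m, ∀ x, ⁅w, x⁆ ∈ (L π' (n + 1 + 1)).comap φ := by
        intro m hm w hw x
        rw [Subgroup.mem_comap, map_commutatorElement]
        exact comm_mem (by omega) (ih w (L_anti hm hw)) (φ x).2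
      apply L_le_of H (by omega)
      · exact (isClosed_L _).preimage hφ
      · obtain ⟨u, hu, hu'⟩ := exists_exact H (n := n + 1) (by omega)
        exact ⟨⟨u, G_anti (by omega) hu⟩, hu, hu', hc (n + 1) le_rfl _ hu⟩
      · intro m hm w _ hwm x
        exact hc m (by omega) w hwm x
    exact h

omit [TopologicalSpace A] [IsTopologicalRing A] [CompactSpace A] [T2Space A] in
/-- cubes in deep levels -/
theorem cube_mem {e k : ℕ} (h3 : (3 : A) = π ^ e) (hk : e ≤ k) {y : SL2 A}
    (hy : y ∈ G π (2 * k + 1)) : y ^ 3 ∈ G π (2 * (k + e) + 1) := by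
  rw [mem_G]
  have e1 : mt (y ^ 3) - 1 = (3 : A) • (mt y - 1) + (3 : A) • ((mt y - 1) * (mt y - 1)) +
      (mt y - 1) * (mt y - 1) * (mt y - 1) := by
    have : mt (y ^ 3) = mt y * mt y * mt y := by
      rw [pow_succ, pow_two, mt_mul, mt_mul]
    rw [this]
    have h3' : ∀ M : Matrix (Fin 2) (Fin 2) A, (3 : A) • M = M + M + M := by
      intro M
      have : (3 : A) = 1 + 1 + 1 := by norm_num
      rw [this, add_smul, add_smul, one_smul]
    rw [h3', h3']
    noncomm_ring
  have hsm : ∀ {n : ℕ} {M : Matrix (Fin 2) (Fin 2) A}, J π n M → J π (n + 2 * e) ((3 : A) • M) := by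
    intro n M hM
    obtain ⟨h1, h2, h4, h5⟩ := hM
    have key : ∀ {i j : ℕ} {x : A}, π ^ i ∣ x → j ≤ e + i → π ^ j ∣ 3 * x := by
      intro i j x hx hj
      rw [h3]
      exact dvd_mul_pow dvd_rfl hx hj
    exact ⟨key h1 (by omega), key h2 (by omega), key h4 (by omega), key h5 (by omega)⟩
  rw [e1]
  have hy' : J π (2 * k + 1) (mt y - 1) := hy
  refine (((hsm hy').mono (by omega)).add ((hsm (hy'.mul hy')).mono (by omega))).add
    ((hy'.mul hy').mul hy' |>.mono (by omega))

theorem no_iso {r' : A' →+* ZMod 3} (H : Unif π r) (H' : Unif π' r') {e e' : ℕ}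
    (he : (3 : A) = π ^ e) (he' : (3 : A') = π' ^ e') (hlt : e < e') (φ : P π ≃ₜ* P π') :
    False := by
  set x : P π := ⟨tx π (π ^ e') 0, tx_mem _ _ _⟩ with hx
  have hxL : x ∈ L π (2 * e' + 1) := by
    have h1 : mt (tx π (π ^ e') 0) 0 0 = 1 := by simp [mt, tx]
    have h2 : mt (tx π (π ^ e') 0) 0 1 = π ^ e' := by simp [mt, tx]
    have h3 : mt (tx π (π ^ e') 0) 1 0 = 0 := by simp [mt, tx]
    have h4 : mt (tx π (π ^ e') 0) 1 1 = 1 := by simp [mt, tx]
    rw [mem_L, mem_G', h1, h2, h3, h4, show (2 * e' + 1) / 2 = e' by omega]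
    exact ⟨by simp, by simp, dvd_rfl, dvd_zero _⟩
  have h1 : φ x ∈ L π' (2 * e' + 1) :=
    map_L H (φ : P π →* P π') φ.continuous _ x hxL
  have h2 : (φ x) ^ 3 ∈ L π' (2 * (e' + e') + 1) := by
    rw [mem_L]
    exact cube_mem he' le_rfl h1
  have h3 : φ.symm ((φ x) ^ 3) ∈ L π (2 * (e' + e') + 1) :=
    map_L H' (φ.symm : P π' →* P π) φ.symm.continuous _ _ h2
  rw [map_pow, ContinuousMulEquiv.symm_apply_apply] at h3
  have h4 : x ^ 3 ∈ L π (2 * (e' + e) + 2) := L_anti (by omega) h3
  rw [mem_L, mem_G'] at h4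
  have h5 := h4.2.2.1
  rw [show (2 * (e' + e) + 2) / 2 = e' + e + 1 by omega] at h5
  have h6 : mt ((x ^ 3 : P π) : SL2 A) 0 1 = π ^ (e' + e) := by
    have : mt ((x ^ 3 : P π) : SL2 A) = mt x.1 * mt x.1 * mt x.1 := by
      rw [pow_succ, pow_two, Subgroup.coe_mul, Subgroup.coe_mul, mt_mul, mt_mul]
    rw [this]
    have hm : mt x.1 = !![1, π ^ e'; 0, 1] := by
      rw [hx]
      ext i j
      fin_cases i <;> fin_cases j <;> simp [mt, tx]
    rw [hm]
    simp only [Matrix.mul_fin_two, Matrix.of_apply, Matrix.cons_val', Matrix.cons_val_zero,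
      Matrix.cons_val_one, Matrix.cons_val_fin_one]
    rw [pow_add, ← he]; ring
  rw [h6] at h5
  exact not_pow_dvd H h5

end hom

section ring

open PowerSeries
open scoped PowerSeries.WithPiTopology

instance : Fact (Nat.Prime 3) := ⟨Nat.prime_three⟩

/-- power series over the 3-adic integers -/
abbrev R3 : Type := PowerSeries ℤ_[3]

theorem compact_R3 : CompactSpace R3 :=
  inferInstanceAs (CompactSpace ((Unit →₀ ℕ) → ℤ_[3]))

instance : CompactSpace R3 := compact_R3

/-- the defining series -/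
noncomputable def fe (e : ℕ) : R3 := X ^ e - C 3

/-- the defining ideal -/
noncomputable def Ie (e : ℕ) : Ideal R3 := Ideal.span {fe e}

theorem isClosed_Ie (e : ℕ) : IsClosed (Ie e : Set R3) := by
  have : (Ie e : Set R3) = Set.range (fun y => fe e * y) := by
    ext x
    rw [SetLike.mem_coe, Ie, Ideal.mem_span_singleton]
    constructor
    · rintro ⟨y, rfl⟩; exact ⟨y, rfl⟩
    · rintro ⟨y, rfl⟩; exact ⟨y, rfl⟩
  rw [this]
  exact (isCompact_range (by fun_prop)).isClosed

/-- the ring `ℤ₃[3^(1/e)]` -/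
abbrev Ae (e : ℕ) : Type := R3 ⧸ Ie e

instance (e : ℕ) : T2Space (Ae e) := by
  have := isClosed_Ie e
  have : T3Space (R3 ⧸ Ie e) := Submodule.t3_quotient_of_isClosed (S := Ie e)
  infer_instance

/-- the uniformizer -/
noncomputable def pie (e : ℕ) : Ae e := Ideal.Quotient.mk (Ie e) X

/-- the residue map on power series -/
noncomputable def r0 : R3 →+* ZMod 3 := (PadicInt.toZMod (p := 3)).comp constantCoeff

theorem r0_fe {e : ℕ} (he : 1 ≤ e) : r0 (fe e) = 0 := by
  rw [fe, map_sub, map_pow]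
  have h1 : r0 X = 0 := by simp [r0]
  have h2 : r0 (C 3) = 0 := by
    simp only [r0, RingHom.comp_apply, constantCoeff_C]
    have : (3 : ℤ_[3]) = ((3 : ℕ) : ℤ_[3]) := by norm_num
    rw [this, map_natCast]; decide
  rw [h1, h2, zero_pow (by omega), sub_zero]

theorem r0_Ie {e : ℕ} (he : 1 ≤ e) : ∀ a ∈ Ie e, r0 a = 0 := by
  intro a ha
  rw [Ie, Ideal.mem_span_singleton] at ha
  obtain ⟨b, rfl⟩ := ha
  rw [map_mul, r0_fe he, zero_mul]

/-- the residue map -/
noncomputable def re {e : ℕ} (he : 1 ≤ e) : Ae e →+* ZMod 3 :=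
  Ideal.Quotient.lift (Ie e) r0 (r0_Ie he)

theorem three_eq (e : ℕ) : (3 : Ae e) = pie e ^ e := by
  have h : Ideal.Quotient.mk (Ie e) (C 3) = Ideal.Quotient.mk (Ie e) (X ^ e) := by
    rw [Ideal.Quotient.eq]
    rw [Ie, Ideal.mem_span_singleton, fe]
    exact ⟨-1, by ring⟩
  have h3 : (C 3 : R3) = 3 := by
    have : (3 : ℤ_[3]) = ((3 : ℕ) : ℤ_[3]) := by norm_num
    rw [this, map_natCast]; norm_num
  rw [h3, map_ofNat] at h
  rw [h, map_pow, pie]

theorem unif {e : ℕ} (he : 1 ≤ e) : Unif (pie e) (re he) where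
  cancel := by
    intro x hx
    obtain ⟨g, rfl⟩ := Ideal.Quotient.mk_surjective x
    rw [pie, ← map_mul, Ideal.Quotient.eq_zero_iff_mem, Ie, Ideal.mem_span_singleton] at hx
    obtain ⟨h, hh⟩ := hx
    have h0 : constantCoeff h = 0 := by
      have h1 := congrArg (constantCoeff (R := ℤ_[3])) hh
      rw [map_mul, map_mul, constantCoeff_X, zero_mul, fe, map_sub, map_pow, constantCoeff_X,
        zero_pow (by omega), constantCoeff_C, zero_sub, neg_mul, eq_comm, neg_eq_zero,
        mul_eq_zero] at h1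
      rcases h1 with h1 | h1
      · exact absurd h1 (by norm_num)
      · exact h1
    obtain ⟨h', rfl⟩ := (X_dvd_iff).2 h0
    rw [Ideal.Quotient.eq_zero_iff_mem, Ie, Ideal.mem_span_singleton]
    refine ⟨h', ?_⟩
    have h2 : (X : R3) * (g - fe e * h') = 0 := by
      rw [mul_sub, hh]; ring
    have h3 := (mul_eq_zero.1 h2).resolve_left X_ne_zero
    exact sub_eq_zero.1 h3
  ker := by
    intro a
    obtain ⟨g, rfl⟩ := Ideal.Quotient.mk_surjective a
    constructor
    · intro h
      have h1 : PadicInt.toZMod (constantCoeff g) = 0 := by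
        have h2 : re he (Ideal.Quotient.mk (Ie e) g) = r0 g := Ideal.Quotient.lift_mk _ _ _
        rw [h2] at h
        exact h
      have h2 : constantCoeff g ∈ RingHom.ker (PadicInt.toZMod (p := 3)) := h1
      rw [PadicInt.ker_toZMod, PadicInt.maximalIdeal_eq_span_p, Ideal.mem_span_singleton] at h2
      obtain ⟨c, hc⟩ := h2
      have h3 : (X : R3) ∣ g - C (constantCoeff g) := by
        rw [X_dvd_iff]; simp
      obtain ⟨g', hg'⟩ := h3
      have h4 : g = X * g' + C 3 * C c := by
        rw [← hg', hc]; simp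
      rw [h4, map_add, map_mul, map_mul]
      have h5 : Ideal.Quotient.mk (Ie e) (C 3) = pie e ^ e := by
        rw [← three_eq]
        have : (C 3 : R3) = 3 := by
          have : (3 : ℤ_[3]) = ((3 : ℕ) : ℤ_[3]) := by norm_num
          rw [this, map_natCast]; norm_num
        rw [this, map_ofNat]
      rw [h5]
      obtain ⟨k, rfl⟩ : ∃ k, e = k + 1 := ⟨e - 1, by omega⟩
      exact dvd_add (dvd_mul_right _ _) (Dvd.dvd.mul_right (dvd_pow_self _ (by omega)) _)
    · rintro ⟨b, hb⟩
      rw [hb, map_mul]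
      have : re he (pie e) = 0 := by
        have h2 : re he (pie e) = r0 X := Ideal.Quotient.lift_mk _ _ _
        rw [h2]; simp [r0]
      rw [this, zero_mul]
  sep := by
    intro a ha
    choose b hb using ha
    choose g hg using fun n => Ideal.Quotient.mk_surjective (b n)
    have h1 : ∀ n, a = Ideal.Quotient.mk (Ie e) (X ^ n * g n) := by
      intro n
      rw [map_mul, map_pow, hg, hb n]; rfl
    have h2 : Tendsto (fun n => X ^ n * g n : ℕ → R3) atTop (𝓝 0) := by
      rw [WithPiTopology.tendsto_iff_coeff_tendsto]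
      intro d
      apply tendsto_atTop_of_eventually_const (i₀ := d + 1)
      intro n hn
      rw [map_zero]
      exact (X_pow_dvd_iff.1 (dvd_mul_right _ _)) d (by omega)
    have h3 : Continuous (Ideal.Quotient.mk (Ie e)) := continuous_quot_mk
    have h4 := (h3.tendsto 0).comp h2
    have h5 : Tendsto (fun _ : ℕ => a) atTop (𝓝 0) := by
      have h6 : (Ideal.Quotient.mk (Ie e)) ∘ (fun n => X ^ n * g n : ℕ → R3) = fun _ => a := by
        funext n; exact (h1 n).symm
      rwa [h6, map_zero] at h4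
    exact tendsto_nhds_unique tendsto_const_nhds h5

end ring

end Pool.Agent.H45R2.Thin
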