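import Pool.Agent.H45R2.Thin.Levels
import Pool.Agent.H45R2.Thin.Anti

/-!
# The topological group, thinness
-/

set_option autoImplicit false

namespace Pool.Agent.H45R2.Thin

open Topology
open scoped commutatorElement

variable {A : Type} [CommRing A] [TopologicalSpace A] [IsTopologicalRing A] [CompactSpace A]
  [T2Space A] {π : A} {r : A →+* ZMod 3}

omit [CommRing A] [IsTopologicalRing A] [T2Space A] in
theorem compact_matrix : CompactSpace (Matrix (Fin 2) (Fin 2) A) :=
  inferInstanceAs (CompactSpace (Fin 2 → Fin 2 → A))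

instance : CompactSpace (SL2 A) :=
  have := compact_matrix (A := A)
  (Matrix.SpecialLinearGroup.isClosedEmbedding_val (n := Fin 2) (R := A)).compactSpace

instance : T2Space (SL2 A) :=
  (Matrix.SpecialLinearGroup.isClosedEmbedding_val (n := Fin 2) (R := A)).isEmbedding.t2Space

theorem isClosed_dvd (a : A) : IsClosed {x : A | a ∣ x} := by
  have : {x : A | a ∣ x} = Set.range (fun y => a * y) := by
    ext x
    constructor
    · rintro ⟨y, rfl⟩; exact ⟨y, rfl⟩
    · rintro ⟨y, rfl⟩; exact ⟨y, rfl⟩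
  rw [this]
  exact (isCompact_range (by fun_prop)).isClosed

omit [IsTopologicalRing A] [CompactSpace A] [T2Space A] in
theorem continuous_mt (i j : Fin 2) : Continuous fun g : SL2 A => mt g i j := by
  have h : Continuous fun g : SL2 A => g.1 := continuous_subtype_val
  exact (continuous_apply_apply i j).comp h

theorem isClosed_G (n : ℕ) : IsClosed (G π n : Set (SL2 A)) := by
  have : (G π n : Set (SL2 A)) =
      ((fun g : SL2 A => mt g 0 0 - 1) ⁻¹' {x | π ^ ((n + 1) / 2) ∣ x}) ∩
      (((fun g : SL2 A => mt g 1 1 - 1) ⁻¹' {x | π ^ ((n + 1) / 2) ∣ x}) ∩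
      (((fun g : SL2 A => mt g 0 1) ⁻¹' {x | π ^ (n / 2) ∣ x}) ∩
      ((fun g : SL2 A => mt g 1 0) ⁻¹' {x | π ^ (n / 2 + 1) ∣ x}))) := by
    ext g
    exact mem_G'
  rw [this]
  refine ((isClosed_dvd _).preimage ((continuous_mt 0 0).sub continuous_const)).inter
    (((isClosed_dvd _).preimage ((continuous_mt 1 1).sub continuous_const)).inter
    (((isClosed_dvd _).preimage (continuous_mt 0 1)).inter
    ((isClosed_dvd _).preimage (continuous_mt 1 0))))

/-- the pro-3 Iwahori group -/
abbrev P (π : A) : Type := ↥(G π 1)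

/-- the filtration inside -/
def L (π : A) (n : ℕ) : Subgroup (P π) := (G π n).subgroupOf (G π 1)

instance L_normal (n : ℕ) : (L π n).Normal := by
  constructor
  intro g hg x
  rw [L, Subgroup.mem_subgroupOf] at *
  exact conj_mem x.2 hg

omit [TopologicalSpace A] [IsTopologicalRing A] [CompactSpace A] [T2Space A] in
theorem mem_L {n : ℕ} {g : P π} : g ∈ L π n ↔ (g : SL2 A) ∈ G π n := Iff.rfl

omit [TopologicalSpace A] [IsTopologicalRing A] [CompactSpace A] [T2Space A] in
theorem L_anti {m n : ℕ} (h : m ≤ n) : L π n ≤ L π m := fun _ hg => G_anti h hg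

omit [TopologicalSpace A] [IsTopologicalRing A] [CompactSpace A] [T2Space A] in
theorem L_one : L π 1 = ⊤ := by
  ext g; simp [mem_L]

omit [TopologicalSpace A] [IsTopologicalRing A] [CompactSpace A] [T2Space A] in
theorem L_zero : L π 0 = ⊤ := by
  rw [eq_top_iff, ← L_one]; exact L_anti (by omega)

theorem isClosed_L (n : ℕ) : IsClosed (L π n : Set (P π)) :=
  (isClosed_G n).preimage continuous_subtype_val

instance : CompactSpace (P π) := isCompact_iff_compactSpace.1 (isClosed_G 1).isCompact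

/-- every neighbourhood of `1` contains a level -/
theorem exists_L_subset (H : Unif π r) {U : Set (P π)} (hU : U ∈ 𝓝 (1 : P π)) :
    ∃ n, (L π n : Set (P π)) ⊆ U := by
  apply exists_subset_nhds_of_compactSpace (V := fun n => (L π n : Set (P π)))
  · intro m n
    exact ⟨max m n, L_anti (le_max_left _ _), L_anti (le_max_right _ _)⟩
  · exact isClosed_L
  · intro x hx
    have : x = 1 := by
      apply Subtype.ext
      apply iInf_G H
      intro n
      exact Set.mem_iInter.1 hx n
    rw [this]; exact hU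

/-- the lifting argument -/
theorem L_le_of (H : Unif π r) {n : ℕ} (hn : 1 ≤ n) (N : Subgroup (P π))
    (hN : IsClosed (N : Set (P π)))
    (h1 : ∃ u ∈ L π n, u ∉ L π (n + 1) ∧ ∀ x, ⁅u, x⁆ ∈ N)
    (h2 : ∀ m, n + 1 ≤ m → ∀ w ∈ N, w ∈ L π m → ∀ x, ⁅w, x⁆ ∈ N) : L π (n + 1) ≤ N := by
  have key : ∀ m, n + 1 ≤ m → ∀ v ∈ L π m, ∃ w ∈ N, w ∈ L π m ∧ v⁻¹ * w ∈ L π (m + 1) := by
    intro m hm
    induction m, hm using Nat.le_induction with
    | base =>
      intro v hv
      obtain ⟨u, hu, hu', hux⟩ := h1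
      obtain ⟨x, hx, h⟩ := cover H hn (u := u) (v := v) hu hu' hv
      refine ⟨⁅u, ⟨x, hx⟩⁆, hux _, ?_, h⟩
      exact comm_mem hn hu hx
    | succ m hm ih =>
      intro v hv
      obtain ⟨w0, hw0, hw0'⟩ := exists_exact H (n := m) (by omega)
      obtain ⟨w, hwN, hwm, hw⟩ := ih ⟨w0, G_anti (by omega) hw0⟩ hw0
      have hw' : w ∉ L π (m + 1) := by
        intro hw1
        apply hw0'
        have : (⟨w0, G_anti (by omega) hw0⟩ : P π) ∈ L π (m + 1) := by
          have h3 := mul_mem hw1 (inv_mem hw)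
          rwa [mul_inv_rev, inv_inv, mul_inv_cancel_left] at h3
        exact this
      obtain ⟨x, hx, h⟩ := cover H (by omega) (u := w) (v := v) hwm hw' hv
      refine ⟨⁅w, ⟨x, hx⟩⁆, h2 m hm w hwN hwm _, ?_, h⟩
      exact comm_mem (by omega) hwm hx
  intro v hv
  have key2 : ∀ m, n + 1 ≤ m → ∃ w ∈ N, v⁻¹ * w ∈ L π m := by
    intro m hm
    induction m, hm using Nat.le_induction with
    | base => exact ⟨1, N.one_mem, by rw [mul_one]; exact inv_mem hv⟩
    | succ m hm ih =>
      obtain ⟨w, hw, hvw⟩ := ih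
      obtain ⟨w', hw', -, h⟩ := key m hm (w⁻¹ * v) (by
        have := inv_mem hvw
        rwa [mul_inv_rev, inv_inv] at this)
      refine ⟨w * w', mul_mem hw hw', ?_⟩
      rwa [mul_inv_rev, inv_inv, mul_assoc] at h
  rw [← SetLike.mem_coe, ← hN.closure_eq, mem_closure_iff_nhds]
  intro U hU
  have hU' : (fun g => v * g) ⁻¹' U ∈ 𝓝 (1 : P π) := by
    apply (continuous_const_mul v).continuousAt.preimage_mem_nhds
    rw [mul_one]; exact hU
  obtain ⟨m, hm⟩ := exists_L_subset H hU'
  obtain ⟨w, hw, hvw⟩ := key2 (max m (n + 1)) (le_max_right _ _)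
  refine ⟨w, ?_, hw⟩
  have := hm (L_anti (le_max_left _ _) hvw)
  rw [Set.mem_preimage, mul_inv_cancel_left] at this
  exact this

/-- closed normal subgroups lie between consecutive levels -/
theorem between (H : Unif π r) (N : Subgroup (P π)) (hN : IsClosed (N : Set (P π)))
    (hNn : N.Normal) (hne : N ≠ ⊥) : ∃ n, 1 ≤ n ∧ L π (n + 1) ≤ N ∧ N ≤ L π n := by
  classical
  have hex : ∃ m, ¬ N ≤ L π m := by
    by_contra hcon
    push Not at hcon
    apply hne
    rw [eq_bot_iff]
    intro g hg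
    rw [Subgroup.mem_bot]
    apply Subtype.ext
    apply iInf_G H
    intro n
    exact hcon n hg
  have hm := Nat.find_spec hex
  have hmin := fun k (hk : k < Nat.find hex) => Nat.find_min hex hk
  generalize Nat.find hex = m at hm hmin
  have hm2 : 2 ≤ m := by
    by_contra hlt
    have : m = 0 ∨ m = 1 := by omega
    rcases this with h | h
    · rw [h, L_zero] at hm; exact hm le_top
    · rw [h, L_one] at hm; exact hm le_top
  obtain ⟨n, rfl⟩ : ∃ n, m = n + 1 := ⟨m - 1, by omega⟩
  have hle : N ≤ L π n := by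
    have := hmin n (by omega)
    push Not at this
    exact this
  refine ⟨n, by omega, ?_, hle⟩
  obtain ⟨u, hu, hu'⟩ := SetLike.not_le_iff_exists.1 hm
  have hcom : ∀ w ∈ N, ∀ x, ⁅w, x⁆ ∈ N := by
    intro w hw x
    rw [commutatorElement_def, mul_assoc w x w⁻¹, mul_assoc w (x * w⁻¹) x⁻¹]
    exact mul_mem hw (hNn.conj_mem _ (inv_mem hw) x)
  exact L_le_of H (by omega) N hN ⟨u, hle hu, hu', hcom u hu⟩ (fun m _ w hw _ x => hcom w hw x)

theorem relIndex_L (H : Unif π r) {n : ℕ} (hn : 1 ≤ n) :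
    (L π (n + 1)).relIndex (L π n) ∣ 9 := by
  have : (L π (n + 1)).relIndex (L π n) = (G π (n + 1)).relIndex (G π n) := by
    rw [L, L, Subgroup.relIndex_subgroupOf]
    exact G_anti hn
  rw [this]; exact relIndex_nine H hn

/-- thinness -/
theorem thin (H : Unif π r) (S : Set (Subgroup (P π)))
    (hS : ∀ N ∈ S, IsClosed (N : Set (P π)) ∧ N.Normal) (ha : IsAntichain (· ≤ ·) S) :
    S.encard ≤ 4 := by
  by_cases hs : S.Subsingleton
  · exact (Set.encard_le_one_iff_subsingleton.2 hs).trans (by norm_num)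
  rw [Set.not_subsingleton_iff] at hs
  have hother : ∀ N ∈ S, ∃ M ∈ S, N ≠ M := by
    intro N hN
    obtain ⟨a, ha, b, hb, hab⟩ := hs
    by_cases h : N = a
    · exact ⟨b, hb, by rw [h]; exact hab⟩
    · exact ⟨a, ha, h⟩
  have hbot : ∀ N ∈ S, N ≠ ⊥ := by
    intro N hN h
    obtain ⟨M, hM, hne⟩ := hother N hN
    exact ha hN hM hne (by rw [h]; exact bot_le)
  obtain ⟨N0, hN0, -, -, -⟩ := hs
  obtain ⟨n, hn, h1, h2⟩ := between H N0 (hS N0 hN0).1 (hS N0 hN0).2 (hbot N0 hN0)
  apply anti_between (L π (n + 1)) (L π n) (L_anti (by omega)) (relIndex_L H hn) S ?_ ha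
  intro N hN
  by_cases hNN : N = N0
  · rw [hNN]; exact ⟨h1, h2⟩
  obtain ⟨m, hm, k1, k2⟩ := between H N (hS N hN).1 (hS N hN).2 (hbot N hN)
  rcases lt_trichotomy m n with hlt | heq | hgt
  · exfalso
    exact ha hN0 hN (Ne.symm hNN) (h2.trans ((L_anti (by omega)).trans k1))
  · subst heq; exact ⟨k1, k2⟩
  · exfalso
    exact ha hN hN0 hNN (k2.trans ((L_anti (by omega)).trans h1))

theorem index_L (H : Unif π r) (n : ℕ) : ∃ k, (L π (n + 1)).index = 3 ^ k := by
  induction n with
  | zero => exact ⟨0, by rw [L_one]; simp⟩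
  | succ n ih =>
    obtain ⟨k, hk⟩ := ih
    have h1 := Subgroup.relIndex_mul_index (L_anti (π := π) (show n + 1 ≤ n + 1 + 1 by omega))
    have h2 : (L π (n + 1 + 1)).relIndex (L π (n + 1)) ∣ 3 ^ 2 := relIndex_L H (by omega)
    obtain ⟨j, -, hj⟩ := (Nat.dvd_prime_pow Nat.prime_three).1 h2
    exact ⟨j + k, by rw [← h1, hj, hk, pow_add]⟩

theorem pro_three (H : Unif π r) (N : Subgroup (P π)) (hN : IsOpen (N : Set (P π))) :
    ∃ k, N.index = 3 ^ k := by
  obtain ⟨n, hn⟩ := exists_L_subset H (hN.mem_nhds N.one_mem)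
  obtain ⟨k, hk⟩ := index_L H n
  have h1 : L π (n + 1) ≤ N := (L_anti (by omega)).trans hn
  have h2 := Subgroup.index_dvd_of_le h1
  rw [hk] at h2
  obtain ⟨j, -, hj⟩ := (Nat.dvd_prime_pow Nat.prime_three).1 h2
  exact ⟨j, hj⟩

theorem isOpen_L (H : Unif π r) (n : ℕ) : IsOpen (L π n : Set (P π)) := by
  match n with
  | 0 => rw [L_zero]; exact isOpen_univ
  | n + 1 =>
    have : (L π (n + 1)).FiniteIndex := by
      obtain ⟨k, hk⟩ := index_L H n
      exact ⟨by rw [hk]; positivity⟩
    exact Subgroup.isOpen_of_isClosed_of_finiteIndex _ (isClosed_L _)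

theorem totallyDisconnected (H : Unif π r) : TotallyDisconnectedSpace (P π) := by
  have : TotallySeparatedSpace (P π) := by
    rw [totallySeparatedSpace_iff_exists_isClopen]
    intro x y hxy
    have hex : ∃ n, x⁻¹ * y ∉ L π n := by
      by_contra hcon
      push Not at hcon
      apply hxy
      have : x⁻¹ * y = 1 := by
        apply Subtype.ext
        exact iInf_G H hcon
      exact inv_mul_eq_one.1 this
    obtain ⟨n, hn⟩ := hex
    refine ⟨(fun z => x⁻¹ * z) ⁻¹' (L π n : Set (P π)), ?_, ?_, ?_⟩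
    · exact ⟨(isClosed_L n).preimage (by fun_prop), (isOpen_L H n).preimage (by fun_prop)⟩
    · simp [one_mem]
    · exact hn
  infer_instance

theorem infinite (H : Unif π r) : Infinite (P π) := by
  apply Infinite.of_injective (fun k : ℕ => (⟨tx π (π ^ k) 0, tx_mem _ _ _⟩ : P π))
  intro i j hij
  have h : π ^ i = π ^ j := by
    have h1 := congrArg (fun g : P π => mt g.1 0 1) hij
    simpa [mt, tx] using h1
  rcases lt_trichotomy i j with hlt | heq | hgt
  · exfalso
    apply not_pow_dvd H (k := i)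
    rw [h]; exact pow_dvd_pow π (by omega)
  · exact heq
  · exfalso
    apply not_pow_dvd H (k := j)
    rw [← h]; exact pow_dvd_pow π (by omega)

end Pool.Agent.H45R2.Thin
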